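import Pool.Agent.H6.FIB.TargetsR
import Pool.Agent.H6.FI.Lib
import Pool.Agent.H94.FI.LCH

/-!
# Row CVT: the conditions on the characters for normal subgroups of an ambient group
-/

set_option autoImplicit false

open scoped Classical ComplexConjugate

namespace Pool.Agent.H4.FIB

open _root_.FI AMc AMt

theorem cvt_ext0_mem {Γ : Type} [Group Γ] (M : Subgroup Γ) (χ : M → ℂ) (x : M) :
    ext0 M χ (x : Γ) = χ x := by
  unfold ext0
  rw [dif_pos x.2]

theorem cvt_ext0_not {Γ : Type} [Group Γ] (M : Subgroup Γ) (χ : M → ℂ) {x : Γ} (hx : x ∉ M) :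
    ext0 M χ x = 0 := by
  unfold ext0
  rw [dif_neg hx]

theorem cvt_ext0_inj {Γ : Type} [Group Γ] (M : Subgroup Γ) : Function.Injective (ext0 M) := by
  intro a b h
  funext x
  have h1 := congrFun h x
  rwa [cvt_ext0_mem, cvt_ext0_mem] at h1

theorem cvt_fs {Γ K : Type} [Fintype Γ] (f : K → Γ) (hf : Function.Injective f) (F : Γ → ℂ)
    (h0 : ∀ g, g ∉ Set.range f → F g = 0) : ∑ᶠ k, F (f k) = ∑ g, F g := by
  rw [← finsum_mem_range hf, finsum_mem_def, Set.indicator_eq_self.2, finsum_eq_sum_of_fintype]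
  intro g hg
  by_contra h
  exact hg (h0 g h)

theorem pf_CVT (_h1 : T_SOL) (_h2 : T_ALS) (h3 : T_PEC) (h4 : T_IOA) (h5 : T_ABL) : T_CVT := by
  intro e A _ _ S hAl hCh Γ _ _ Z M C δ hAG ν hν
  obtain ⟨hν1, hνm⟩ := h5 Γ Z (fun a ha b _ => hAG.cen a ha b) ν hν
  obtain ⟨hν0, -⟩ := Lib.lS1 Γ Z ν hν
  have hMn : M.Normal := hAG.nor
  obtain ⟨π, hπ⟩ : ∃ π : M →* A, π = δ.comp M.subtype := ⟨_, rfl⟩
  have hπa : ∀ m : M, π m = δ (m : Γ) := fun m => by rw [hπ]; rfl
  have hπr : π.range = S := by rw [hπ, MonoidHom.range_comp, Subgroup.range_subtype, hAG.map]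
  have hZi : ∀ z, z ∈ Z ↔ z ∈ M ∧ z ∈ C := fun z => by rw [← hAG.inf]; exact Subgroup.mem_inf
  have hker : ∀ m : M, m ∈ π.ker ↔ (m : Γ) ∈ Z := by
    intro m
    rw [MonoidHom.mem_ker, hπa, ← hAG.ker, hZi]
    exact ⟨fun h => ⟨m.2, h⟩, fun h => h.2⟩
  have hcen : π.ker ≤ Subgroup.center M := by
    intro m hm
    rw [Subgroup.mem_center_iff]
    intro g
    exact Subtype.ext (hAG.cen m ((hker m).1 hm) g).symm
  obtain ⟨l0, hl0⟩ : ∃ l0 : π.ker →* ℂ, ∀ x, l0 x = ν ((x : M) : Γ) :=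
    ⟨{ toFun := fun x : π.ker => ν ((x : M) : Γ)
       map_one' := hν1
       map_mul' := fun a b => hνm _ ((hker a).1 a.2) _ ((hker b).1 b.2) }, fun x => rfl⟩
  obtain ⟨ψ, hψ⟩ : ∃ ψ : π.ker → ℂ, ψ = fun x : π.ker => ν ((x : M) : Γ) := ⟨_, rfl⟩
  have hψI : ψ ∈ Irr π.ker := by
    have h6 := Pool.Agent.H94.FI.pf_LCH π.ker l0.toHomUnits
    have h7 : (fun g : π.ker => ((l0.toHomUnits g : ℂˣ) : ℂ)) = ψ := by
      funext x
      rw [MonoidHom.coe_toHomUnits, hl0, hψ]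
    rw [h7] at h6
    exact h6
  have key : ∀ χ : M → ℂ, ∑ᶠ n : π.ker, χ n * conj (ψ n) =
      ∑ g : Γ, ext0 M χ g * conj (ν g) := by
    intro χ
    have h6 := cvt_fs (fun n : π.ker => ((n : M) : Γ))
      (fun a b h => Subtype.ext (Subtype.ext h)) (fun g => ext0 M χ g * conj (ν g)) (by
        intro g hg
        have hgZ : g ∉ Z := fun hZ => hg ⟨⟨⟨g, ((hZi g).1 hZ).1⟩, (hker _).2 hZ⟩, rfl⟩
        simp only [hν0 g hgZ, map_zero, mul_zero])
    rw [← h6]
    refine finsum_congr fun n => ?_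
    rw [cvt_ext0_mem, hψ]
  have hIrr : ∀ φ, φ ∈ Ab M ν ↔ φ ∈ ext0 M '' IrrO π.ker ψ := by
    intro φ
    constructor
    · rintro ⟨⟨χ, hχ, rfl⟩, hov⟩
      exact ⟨χ, ⟨hχ, by rw [key]; exact hov⟩, rfl⟩
    · rintro ⟨χ, ⟨hχ, ho⟩, rfl⟩
      exact ⟨⟨χ, hχ, rfl⟩, by unfold Over; rw [← key]; exact ho⟩
  have hAb : Ab M ν = ext0 M '' IrrO π.ker ψ := Set.ext hIrr
  have hdeg : ∀ χ : M → ℂ, ext0 M χ 1 = χ 1 := fun χ => cvt_ext0_mem M χ 1
  have hsum : ∀ T : Set (M → ℂ), ∑ᶠ φ ∈ ext0 M '' T, (φ 1).re = ∑ᶠ χ ∈ T, (χ 1).re := by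
    intro T
    rw [finsum_mem_image (cvt_ext0_inj M).injOn]
    refine finsum_mem_congr rfl fun χ _ => ?_
    rw [hdeg]
  have hcard : ∀ T : Set (M → ℂ), (ext0 M '' T).ncard = T.ncard := fun T =>
    Set.ncard_image_of_injective T (cvt_ext0_inj M)
  obtain ⟨-, -, -, hacd, hpos⟩ := h4 M π.ker ψ hψI
  refine ⟨?_, fun hS => ?_⟩
  · have h6 := hCh.one M π hπr hcen ψ hψI
    unfold kk dd
    rw [hAb, hsum, hcard, ← hacd]
    exact mul_le_mul_of_nonneg_right h6 (Nat.cast_nonneg _)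
  · have hSt : S ≠ ⊤ := fun h => hS (by rw [h, Subgroup.index_top])
    obtain ⟨a, ha⟩ : ∃ a, a ∉ S := by
      by_contra h
      push Not at h
      exact hSt (top_le_iff.1 fun x _ => h x)
    obtain ⟨g, hg⟩ := hAG.sur a
    obtain ⟨σ, hσ⟩ : ∃ σ : M ≃* M, ∀ m : M, ((σ m : M) : Γ) = g * m * g⁻¹ :=
      ⟨MulAut.conjNormal g, fun m => MulAut.conjNormal_apply g m⟩
    have h6 := hCh.two hS M π hπr hcen ψ hψI σ a ha (fun z hz => by
      apply Subtype.ext
      rw [hσ, ← hAG.cen z ((hker z).1 hz) g, mul_inv_cancel_right]) (fun m => by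
      rw [hπa, hσ, map_mul, map_mul, map_inv, hg, hπa])
    obtain ⟨hcomm, -, hidx, -, -, hmem⟩ := h3 Γ A S Z M C δ hAl hAG
    have hFx : InvC M ν = ext0 M '' Fx π.ker ψ σ := by
      ext φ
      constructor
      · rintro ⟨hφ, hinv⟩
        obtain ⟨χ, hχ, rfl⟩ := (hIrr φ).1 hφ
        refine ⟨χ, ⟨hχ, ?_⟩, rfl⟩
        funext m
        have h7 := congrFun (hinv g) (m : Γ)
        unfold cj at h7
        rw [← hσ, cvt_ext0_mem, cvt_ext0_mem] at h7
        exact h7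
      · rintro ⟨χ, ⟨hχ, hfix⟩, rfl⟩
        have hφI : ext0 M χ ∈ Ab M ν := (hIrr _).2 ⟨χ, hχ, rfl⟩
        refine ⟨hφI, ?_⟩
        obtain ⟨-, hcl, -⟩ := Lib.lS1 Γ M _ hφI.1
        have hnorm : ∀ u x : Γ, x ∉ M → u * x * u⁻¹ ∉ M := by
          intro u x hx h7
          apply hx
          have h8 := hMn.conj_mem _ h7 u⁻¹
          have h9 : u⁻¹ * (u * x * u⁻¹) * u⁻¹⁻¹ = x := by group
          rwa [h9] at h8
        have hgst : cj g (ext0 M χ) = ext0 M χ := by
          funext x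
          unfold cj
          by_cases hx : x ∈ M
          · have h7 := congrFun hfix ⟨x, hx⟩
            have h8 := hσ ⟨x, hx⟩
            simp only at h7 h8
            rw [← h8, cvt_ext0_mem, h7]
            exact (cvt_ext0_mem M χ ⟨x, hx⟩).symm
          · rw [cvt_ext0_not M χ hx, cvt_ext0_not M χ (hnorm g x hx)]
        have hle : M ⊔ C ≤ stab ⊤ (ext0 M χ) := by
          refine sup_le (fun m hm => ⟨trivial, ?_⟩) (fun c hc => ⟨trivial, ?_⟩)
          · funext x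
            exact hcl m hm x
          · funext x
            unfold cj
            by_cases hx : x ∈ M
            · rw [← hcomm x hx c hc, mul_inv_cancel_right]
            · rw [cvt_ext0_not M χ hx, cvt_ext0_not M χ (hnorm c x hx)]
        have hgs : g ∈ stab ⊤ (ext0 M χ) := ⟨trivial, hgst⟩
        have hgn : g ∉ M ⊔ C := fun h => ha (by rw [← hg]; exact (hmem g).1 h)
        have hp : S.index.Prime := hAl.idx.resolve_left hS
        have hdv : (stab ⊤ (ext0 M χ)).index ∣ S.index := by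
          rw [← hidx]
          exact Subgroup.index_dvd_of_le hle
        have hone : (stab ⊤ (ext0 M χ)).index = 1 := by
          rcases (Nat.dvd_prime hp).1 hdv with h7 | h7
          · exact h7
          · exfalso
            have h8 := Subgroup.relIndex_mul_index hle
            rw [hidx, h7] at h8
            have h9 : (M ⊔ C).relIndex (stab ⊤ (ext0 M χ)) = 1 :=
              Nat.eq_of_mul_eq_mul_right hp.pos (h8.trans (one_mul _).symm)
            exact hgn (Subgroup.relIndex_eq_one.1 h9 hgs)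
        have htop := Subgroup.index_eq_one.1 hone
        intro h
        have h7 : h ∈ stab ⊤ (ext0 M χ) := by
          rw [htop]
          trivial
        exact h7.2
    have hdiff : Ab M ν \ InvC M ν = ext0 M '' (IrrO π.ker ψ \ Fx π.ker ψ σ) := by
      rw [hAb, hFx, Set.image_sdiff (cvt_ext0_inj M)]
    rw [hdiff, hFx, hsum, hsum, hcard, hcard]
    exact h6

end Pool.Agent.H4.FIB
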