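import Pool.Agent.H6.FIB.TargetsG

/-!
# Row H60: non-solvable groups of order 60
-/

set_option autoImplicit false

namespace Pool.Agent.H4.FIB

open FI AMc AMt

/-- a group of order 60 whose proper normal subgroups are trivial has a subgroup of index 5 -/
theorem h60_index {T : Type} [Group T] [Finite T] (hT : Nat.card T = 60)
    (hs : ∀ N : Subgroup T, N.Normal → N = ⊥ ∨ N = ⊤) : ∃ H : Subgroup T, H.index = 5 := by
  classical
  have : Fact (Nat.Prime 2) := ⟨Nat.prime_two⟩
  have hf : Nat.factorization 60 2 = 2 := by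
    rw [show (60 : ℕ) = 2 ^ 2 * 15 by norm_num, Nat.factorization_mul (by norm_num) (by norm_num),
      Nat.Prime.factorization_pow Nat.prime_two]
    simp [Nat.factorization_eq_zero_of_not_dvd (show ¬ 2 ∣ 15 by norm_num)]
  obtain ⟨P⟩ : Nonempty (Sylow 2 T) := inferInstance
  have hP : Nat.card P = 4 := by
    rw [P.card_eq_multiplicity, hT, hf]
    norm_num
  have hPi : (P : Subgroup T).index = 15 := by
    have := (P : Subgroup T).card_mul_index
    rw [hT, hP] at this
    omega
  obtain ⟨H, hH⟩ : ∃ H : Subgroup T, H = Subgroup.normalizer (P : Set T) := ⟨_, rfl⟩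
  have hPH : (P : Subgroup T) ≤ H := by
    rw [hH]
    exact Subgroup.le_normalizer
  have hd : H.index ∣ 15 := by
    rw [← hPi]
    exact Subgroup.index_dvd_of_le hPH
  have hcH := H.card_mul_index
  rw [hT] at hcH
  have hPne : (P : Subgroup T) ≠ ⊥ := by
    intro h
    have h1 : Nat.card (P : Subgroup T) = 1 := by rw [h]; simp
    rw [hP] at h1
    omega
  have hPnt : (P : Subgroup T) ≠ ⊤ := by
    intro h
    rw [h, Subgroup.index_top] at hPi
    omega
  have h15 : H.index = 1 ∨ H.index = 3 ∨ H.index = 5 ∨ H.index = 15 := by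
    have h1 : H.index ≤ 15 := Nat.le_of_dvd (by norm_num) hd
    interval_cases H.index <;> simp_all
  rcases h15 with h | h | h | h
  · -- normal
    exfalso
    have h1 : H = ⊤ := Subgroup.index_eq_one.1 h
    have h2 : (P : Subgroup T).Normal := by
      rw [hH] at h1
      exact Subgroup.normalizer_eq_top_iff.1 h1
    rcases hs _ h2 with h3 | h3
    · exact hPne h3
    · exact hPnt h3
  · -- index 3
    exfalso
    have h1 : H.normalCore = ⊥ := by
      rcases hs H.normalCore inferInstance with h2 | h2
      · exact h2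
      · have h3 : H = ⊤ := top_le_iff.1 (h2 ▸ H.normalCore_le)
        rw [h3, Subgroup.index_top] at h
        omega
    rw [Subgroup.normalCore_eq_ker] at h1
    have h2 : Function.Injective (MulAction.toPermHom T (T ⧸ H)) :=
      (MonoidHom.ker_eq_bot_iff _).1 h1
    have h3 := Nat.card_le_card_of_injective _ h2
    rw [hT, Nat.card_perm] at h3
    have h4 : Nat.card (T ⧸ H) = 3 := h
    rw [h4] at h3
    norm_num [Nat.factorial] at h3
  · exact ⟨H, h⟩
  · -- Burnside
    exfalso
    have hHc : Nat.card H = 4 := by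
      rw [h] at hcH
      omega
    have hHP : (P : Subgroup T) = H := Subgroup.eq_of_le_of_card_ge hPH (by rw [hHc, hP])
    have hcom : IsMulCommutative (P : Subgroup T) :=
      IsPGroup.isMulCommutative_of_card_eq_prime_sq (p := 2) (by rw [hP]; norm_num)
    have hle : Subgroup.normalizer (P : Set T) ≤ Subgroup.centralizer (P : Set T) := by
      rw [← hH, ← hHP]
      intro a ha b hb
      have := hcom.is_comm.comm ⟨b, hb⟩ ⟨a, ha⟩
      exact congrArg Subtype.val this
    have h1 := MonoidHom.ker_transferSylow_isComplement' P hle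
    have h2 : Nat.card (MonoidHom.transferSylow P hle).ker * Nat.card P = Nat.card T :=
      h1.card_mul_card
    rw [hT, hP] at h2
    rcases hs (MonoidHom.transferSylow P hle).ker inferInstance with h3 | h3
    · rw [h3] at h2
      simp at h2
    · rw [h3] at h2
      rw [Subgroup.card_top, hT] at h2
      omega

theorem pf_H60 (h1 : T_O60) : T_H60 := by
  classical
  intro T _ _ hT hns
  have hs : ∀ N : Subgroup T, N.Normal → N = ⊥ ∨ N = ⊤ := by
    intro N hN
    by_contra hne
    push Not at hne
    have hc := N.card_mul_index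
    have hc1 : Nat.card N ≠ 1 := fun h => hne.1 (Subgroup.card_eq_one.1 h)
    have hi1 : N.index ≠ 1 := fun h => hne.2 (Subgroup.index_eq_one.1 h)
    rw [hT] at hc
    have hN0 : Group.IsSolvable N := by
      refine h1 N (Or.inl ⟨⟨N.index, hc.symm⟩, fun h => hi1 ?_⟩)
      rw [h] at hc
      omega
    have hQ0 : Group.IsSolvable (T ⧸ N) := by
      refine h1 (T ⧸ N) (Or.inl ⟨⟨Nat.card N, by
        rw [← hc, mul_comm]
        rfl⟩, fun h => hc1 ?_⟩)
      have h' : N.index = 60 := h
      rw [h'] at hc
      omega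
    exact hns ((Group.isSolvable_iff_subgroup_quotient N).2 ⟨hN0, hQ0⟩)
  obtain ⟨H, hH⟩ := h60_index hT hs
  have hcore : H.normalCore = ⊥ := by
    rcases hs H.normalCore inferInstance with h2 | h2
    · exact h2
    · have h3 : H = ⊤ := top_le_iff.1 (h2 ▸ H.normalCore_le)
      rw [h3, Subgroup.index_top] at hH
      omega
  rw [Subgroup.normalCore_eq_ker] at hcore
  have hinj : Function.Injective (MulAction.toPermHom T (T ⧸ H)) :=
    (MonoidHom.ker_eq_bot_iff _).1 hcore
  have hc5 : Nat.card (T ⧸ H) = 5 := hH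
  obtain ⟨e⟩ : Nonempty (T ⧸ H ≃ Fin 5) := ⟨Finite.equivFinOfCardEq hc5⟩
  obtain ⟨f, hf⟩ : ∃ f : T →* Equiv.Perm (Fin 5),
      f = (Equiv.permCongrHom e).toMonoidHom.comp (MulAction.toPermHom T (T ⧸ H)) := ⟨_, rfl⟩
  have hfi : Function.Injective f := by
    rw [hf]
    exact (Equiv.permCongrHom e).injective.comp hinj
  refine ⟨f, hfi, ?_⟩
  have hcr : Nat.card f.range = 60 := by
    rw [← hT]
    exact (Nat.card_congr (MonoidHom.ofInjective hfi).toEquiv).symm
  have hir : f.range.index = 2 := by
    have h2 := f.range.card_mul_index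
    have h3 : Nat.card (Equiv.Perm (Fin 5)) = 120 := by
      rw [Nat.card_perm, Nat.card_fin]
      rfl
    rw [hcr, h3] at h2
    omega
  exact (Equiv.Perm.eq_alternatingGroup_of_index_eq_two hir).ge

end Pool.Agent.H4.FIB
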